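import Pool.Agent.Helper70K1.Perm.RowAff

/-!
# Exponential bounds
-/

set_option autoImplicit false

namespace Pool.Agent.Helper70K1.Perm

theorem pow_le_choose_mul {q : ℕ} (hq : 1 ≤ q) : ∀ a : ℕ, q ^ a ≤ (q * a).choose a
  | 0 => by simp
  | a + 1 => by
    have ih := pow_le_choose_mul hq a
    have h1 : (q * (a + 1) - 1 + 1) * (q * (a + 1) - 1).choose a =
        (q * (a + 1) - 1 + 1).choose (a + 1) * (a + 1) :=
      Nat.add_one_mul_choose_eq _ _
    have h2 : q * (a + 1) - 1 + 1 = q * (a + 1) := by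
      have : 1 ≤ q * (a + 1) := Nat.mul_pos hq (Nat.succ_pos a)
      omega
    rw [h2] at h1
    have h3 : (q * a).choose a ≤ (q * (a + 1) - 1).choose a :=
      Nat.choose_le_choose _ (by rw [Nat.mul_succ]; omega)
    have h4 : (a + 1) * (q * (q * a).choose a) ≤ (a + 1) * (q * (a + 1)).choose (a + 1) := by
      calc (a + 1) * (q * (q * a).choose a) = (q * (a + 1)) * (q * a).choose a := by ring
        _ ≤ (q * (a + 1)) * (q * (a + 1) - 1).choose a := Nat.mul_le_mul_left _ h3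
        _ = (a + 1) * (q * (a + 1)).choose (a + 1) := by rw [h1]; ring
    have h5 := Nat.le_of_mul_le_mul_left h4 (Nat.succ_pos a)
    calc q ^ (a + 1) = q * q ^ a := by ring
      _ ≤ q * (q * a).choose a := Nat.mul_le_mul_left _ ih
      _ ≤ _ := h5

theorem choose_mul_le (m a : ℕ) : (m * a).choose a ≤ (3 * m) ^ a := by
  have h1 : (((m * a).choose a : ℕ) : ℝ) ≤ ((m * a : ℕ) : ℝ) ^ a / (a.factorial : ℝ) :=
    Nat.choose_le_pow_div a (m * a)
  have h2 : ((a : ℝ)) ^ a / (a.factorial : ℝ) ≤ Real.exp a :=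
    Real.pow_div_factorial_le_exp (a : ℝ) (Nat.cast_nonneg a) a
  have h3 : Real.exp (a : ℝ) ≤ 3 ^ a := by
    rw [← mul_one (a : ℝ), Real.exp_nat_mul]
    exact pow_le_pow_left₀ (Real.exp_pos 1).le (by
      have := Real.exp_one_lt_d9
      linarith) a
  have h4 : (((m * a).choose a : ℕ) : ℝ) ≤ (((3 * m) ^ a : ℕ) : ℝ) := by
    refine h1.trans ?_
    push_cast
    rw [mul_pow, mul_pow, mul_div_assoc]
    have h5 : (m : ℝ) ^ a * ((a : ℝ) ^ a / (a.factorial : ℝ)) ≤ (m : ℝ) ^ a * 3 ^ a :=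
      mul_le_mul_of_nonneg_left (h2.trans h3) (by positivity)
    linarith
  exact_mod_cast h4

theorem exp_local {n k g : ℕ}
    (h : ∀ a : ℕ, 2 * a ≤ n → n.choose a ≤ k * (2 * (g * a)).choose (g * a)) :
    2 ^ (n / (2 * 4 ^ g)) ≤ k := by
  set a := n / (2 * 4 ^ g) with ha
  have h4 : 1 ≤ 4 ^ g := Nat.one_le_pow _ _ (by norm_num)
  have h1 : 2 * 4 ^ g * a ≤ n := Nat.mul_div_le n _
  have h2 : 2 * a ≤ n := by
    refine le_trans (Nat.mul_le_mul_right a ?_) h1
    omega
  have h3 := h a h2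
  have h5 : (2 * (g * a)).choose (g * a) ≤ (4 ^ g) ^ a := by
    rw [← pow_mul]
    exact Nat.centralBinom_le_four_pow (g * a)
  have h6 : (2 * 4 ^ g) ^ a ≤ n.choose a :=
    (pow_le_choose_mul (by omega) a).trans (Nat.choose_le_choose _ h1)
  have h7 : 2 ^ a * (4 ^ g) ^ a ≤ k * (4 ^ g) ^ a := by
    rw [← mul_pow]
    exact h6.trans (h3.trans (Nat.mul_le_mul_left _ h5))
  exact Nat.le_of_mul_le_mul_right h7 (by positivity)

theorem exp_affine {n k g : ℕ}
    (h : ∀ a : ℕ, 2 * a ≤ n → n.choose a ≤ k * (g ^ a * ((g + 1) * a).choose a)) :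
    2 ^ (n / (6 * g * (g + 1))) ≤ k := by
  rcases Nat.eq_zero_or_pos g with rfl | hg
  · simpa using h 0 (by omega)
  · set a := n / (6 * g * (g + 1)) with ha
    have h4 : 1 ≤ g * (g + 1) := Nat.mul_pos hg (Nat.succ_pos g)
    have h1 : 6 * g * (g + 1) * a ≤ n := Nat.mul_div_le n _
    have h2 : 2 * a ≤ n := by
      refine le_trans (Nat.mul_le_mul_right a ?_) h1
      nlinarith
    have h3 := h a h2
    have h5 : g ^ a * ((g + 1) * a).choose a ≤ (3 * (g * (g + 1))) ^ a := by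
      refine (Nat.mul_le_mul_left _ (choose_mul_le (g + 1) a)).trans (le_of_eq ?_)
      rw [← mul_pow]
      congr 1
      ring
    have h6 : (6 * g * (g + 1)) ^ a ≤ n.choose a :=
      (pow_le_choose_mul (by nlinarith) a).trans (Nat.choose_le_choose _ h1)
    have h7 : 2 ^ a * (3 * (g * (g + 1))) ^ a ≤ k * (3 * (g * (g + 1))) ^ a := by
      rw [← mul_pow]
      refine le_trans (le_of_eq ?_) (h6.trans (h3.trans (Nat.mul_le_mul_left _ h5)))
      congr 1
      ring
    exact Nat.le_of_mul_le_mul_right h7 (by positivity)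

end Pool.Agent.Helper70K1.Perm
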