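import Mathlib

/-!
# Determinants whose rows depend on different arguments
-/

set_option autoImplicit false

namespace Pool.Agent.Helper70K1.Perm

open Matrix Finset

variable {K : Type*} [Field K]

section Det

variable {ι : Type*} [Fintype ι] [DecidableEq ι]

/-- Adding a combination of the other rows to a row does not change the determinant. -/
theorem det_update_add_span (R : ι → ι → K) (s : ι) (z : ι → K) (S : Finset ι) (hs : s ∉ S)
    (hz : z ∈ Submodule.span K (R '' S)) :
    (Matrix.of (Function.update R s (R s + z))).det = (Matrix.of R).det := by
  have h1 : ∀ z ∈ Submodule.span K (R '' S), (Matrix.of (Function.update R s z)).det = 0 := by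
    intro z hz
    induction hz using Submodule.span_induction with
    | mem x hx =>
      obtain ⟨t, ht, rfl⟩ := hx
      have hne : s ≠ t := fun h => hs (h ▸ ht)
      refine Matrix.det_zero_of_row_eq hne ?_
      change Function.update R s (R t) s = Function.update R s (R t) t
      rw [Function.update_self, Function.update_of_ne hne.symm]
    | zero =>
      refine Matrix.det_eq_zero_of_row_eq_zero s fun j => ?_
      simp
    | add x y _ _ hx hy =>
      have h2 := Matrix.det_updateRow_add (Matrix.of R) s x y
      simp only [Matrix.updateRow] at h2
      change (Matrix.of (Function.update R s (x + y))).det = _ at h2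
      rw [h2]
      change (Matrix.of (Function.update R s x)).det + (Matrix.of (Function.update R s y)).det = 0
      rw [hx, hy, add_zero]
    | smul c x _ hx =>
      have h2 := Matrix.det_updateRow_smul (Matrix.of R) s c x
      change (Matrix.of (Function.update R s (c • x))).det = _ at h2
      rw [h2]
      change c * (Matrix.of (Function.update R s x)).det = 0
      rw [hx, mul_zero]
  have h2 := Matrix.det_updateRow_add (Matrix.of R) s (R s) z
  change (Matrix.of (Function.update R s (R s + z))).det =
    (Matrix.of (Function.update R s (R s))).det + (Matrix.of (Function.update R s z)).det at h2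
  rw [h2, h1 z hz, add_zero, Function.update_eq_self]

/-- Changing rows modulo the span of rows that are not changed does not change the determinant. -/
theorem det_congr_span (S : Finset ι) (R : ι → ι → K) : ∀ (U : Finset ι) (_ : Disjoint U S)
    (R' : ι → ι → K) (_ : ∀ s ∉ U, R' s = R s)
    (_ : ∀ s ∈ U, R' s - R s ∈ Submodule.span K (R '' S)),
    (Matrix.of R').det = (Matrix.of R).det := by
  intro U
  induction U using Finset.induction_on with
  | empty =>
    intro _ R' h1 _
    have : R' = R := funext fun s => h1 s (Finset.notMem_empty s)
    rw [this]
  | insert s U hs ih =>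
    intro hd R' h1 h2
    rw [Finset.disjoint_insert_left] at hd
    -- restore the row `s`
    have h3 := ih hd.2 (Function.update R' s (R s)) (fun t ht => by
      by_cases hts : t = s
      · subst hts; simp
      · rw [Function.update_of_ne hts]
        exact h1 t (by simp [hts, ht])) (fun t ht => by
      have hts : t ≠ s := fun h => hs (h ▸ ht)
      rw [Function.update_of_ne hts]
      exact h2 t (Finset.mem_insert_of_mem ht))
    rw [← h3]
    have h4 : (Function.update R' s (R s)) '' (S : Set ι) = R '' S := by
      refine Set.image_congr fun t ht => ?_
      have hts : t ≠ s := fun h => hd.1 (h ▸ ht)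
      rw [Function.update_of_ne hts]
      exact h1 t (by
        rw [Finset.mem_insert, not_or]
        exact ⟨hts, fun h5 => Finset.disjoint_left.1 hd.2 h5 ht⟩)
    have h5 := det_update_add_span (Function.update R' s (R s)) s (R' s - R s) S hd.1 (by
      rw [h4]; exact h2 s (Finset.mem_insert_self s U))
    rw [Function.update_self, Function.update_idem] at h5
    have h6 : Function.update R' s (R s + (R' s - R s)) = R' := by
      rw [add_sub_cancel, Function.update_eq_self]
    rw [h6] at h5
    exact h5

/-- The determinant as an alternating map in some of the rows. -/
noncomputable def detAlt {n : ℕ} (D : Submodule K (ι → K)) (e : Fin n ↪ ι) (R : ι → ι → K) :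
    D [⋀^Fin n]→ₗ[K] K where
  toFun d := (Matrix.of fun s => if h : ∃ j, e j = s then (d h.choose : ι → K) else R s).det
  map_update_add' := by
    intro _ d j x y
    have key : ∀ z : D, (Matrix.of fun s => if h : ∃ j, e j = s then
        ((@Function.update (Fin n) (fun _ => D) _ d j z) h.choose : ι → K) else R s) =
        (Matrix.of fun s => if h : ∃ j, e j = s then (d h.choose : ι → K) else R s).updateRow
          (e j) (z : ι → K) := by
      intro z
      ext s c
      rw [Matrix.updateRow_apply]
      by_cases hs : s = e j
      · subst hs
        have h1 : ∃ j', e j' = e j := ⟨j, rfl⟩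
        have h2 : h1.choose = j := e.injective h1.choose_spec
        simp only [Matrix.of_apply, dif_pos h1, if_true]
        rw [h2, Function.update_self]
      · rw [if_neg hs]
        simp only [Matrix.of_apply]
        by_cases h1 : ∃ j', e j' = s
        · rw [dif_pos h1, dif_pos h1, Function.update_of_ne]
          intro h2
          exact hs (by rw [← h1.choose_spec, h2])
        · rw [dif_neg h1, dif_neg h1]
    rw [key, key, key]
    rw [Submodule.coe_add, Matrix.det_updateRow_add]
  map_update_smul' := by
    intro _ d j c x
    have key : ∀ z : D, (Matrix.of fun s => if h : ∃ j, e j = s then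
        ((@Function.update (Fin n) (fun _ => D) _ d j z) h.choose : ι → K) else R s) =
        (Matrix.of fun s => if h : ∃ j, e j = s then (d h.choose : ι → K) else R s).updateRow
          (e j) (z : ι → K) := by
      intro z
      ext s c
      rw [Matrix.updateRow_apply]
      by_cases hs : s = e j
      · subst hs
        have h1 : ∃ j', e j' = e j := ⟨j, rfl⟩
        have h2 : h1.choose = j := e.injective h1.choose_spec
        simp only [Matrix.of_apply, dif_pos h1, if_true]
        rw [h2, Function.update_self]
      · rw [if_neg hs]
        simp only [Matrix.of_apply]
        by_cases h1 : ∃ j', e j' = s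
        · rw [dif_pos h1, dif_pos h1, Function.update_of_ne]
          intro h2
          exact hs (by rw [← h1.choose_spec, h2])
        · rw [dif_neg h1, dif_neg h1]
    rw [key, key]
    rw [Submodule.coe_smul, Matrix.det_updateRow_smul, smul_eq_mul]
  map_eq_zero_of_eq' := by
    intro d i j hij hne
    refine Matrix.det_zero_of_row_eq (i := e i) (j := e j) (fun h => hne (e.injective h)) ?_
    have h1 : ∃ j', e j' = e i := ⟨i, rfl⟩
    have h2 : ∃ j', e j' = e j := ⟨j, rfl⟩
    have h3 : h1.choose = i := e.injective h1.choose_spec
    have h4 : h2.choose = j := e.injective h2.choose_spec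
    funext c
    simp only [Matrix.of_apply, dif_pos h1, dif_pos h2]
    rw [h3, h4, hij]

/-- The determinant of a matrix in which the rows in `U` depend on `x`, the rows in `V` depend on
`y` and the other rows are constant is a sum of few products of a function of `x` and a function
of `y`. -/
theorem det_sep {α β : Type*} (U V : Finset ι) (hUV : Disjoint U V) (u : α → ι → ι → K)
    (v : β → ι → ι → K) (c : ι → ι → K) :
    ∃ (f : Fin ((U.card + V.card).choose U.card) → α → K)
      (h : Fin ((U.card + V.card).choose U.card) → β → K), ∀ x y,
      (Matrix.of fun s => if s ∈ U then u x s else if s ∈ V then v y s else c s).det =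
        ∑ t, f t x * h t y := by
  classical
  set S : Finset ι := (U ∪ V)ᶜ with hS
  have hdUS : Disjoint U S := by
    rw [hS, Finset.disjoint_left]
    intro s h1 h2
    rw [Finset.mem_compl, Finset.mem_union] at h2
    exact h2 (Or.inl h1)
  have hSc : ∀ s ∈ S, s ∉ U ∧ s ∉ V := fun s hs => by
    rw [hS, Finset.mem_compl, Finset.mem_union, not_or] at hs
    exact hs
  have hcard : U.card + V.card + S.card = Fintype.card ι := by
    rw [hS, Finset.card_compl, Finset.card_union_of_disjoint hUV]
    have := Finset.card_le_univ (U ∪ V)
    rw [Finset.card_union_of_disjoint hUV] at this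
    omega
  by_cases hli : LinearIndependent K (fun s : S => c s)
  · set C : Submodule K (ι → K) := Submodule.span K (c '' S) with hC
    have hCr : Submodule.span K (Set.range fun s : S => c s) = C := by
      rw [hC]
      congr 1
      ext z
      simp
    have hCf : Module.finrank K C = S.card := by
      rw [← hCr, finrank_span_eq_card hli, Fintype.card_coe]
    obtain ⟨D, hD⟩ := Submodule.exists_isCompl C
    have hDf : Module.finrank K D = U.card + V.card := by
      have h1 := Submodule.finrank_add_eq_of_isCompl hD
      rw [Module.finrank_pi] at h1
      omega
    set e : Fin U.card ↪ ι := U.equivFin.symm.toEmbedding.trans (Function.Embedding.subtype _)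
      with he
    have heU : ∀ s, (∃ j, e j = s) ↔ s ∈ U := by
      intro s
      constructor
      · rintro ⟨j, rfl⟩
        exact (U.equivFin.symm j).2
      · intro hs
        exact ⟨U.equivFin ⟨s, hs⟩, by simp [he]⟩
    set A : β → D [⋀^Fin U.card]→ₗ[K] K := fun y =>
      detAlt D e (fun s => if s ∈ V then v y s else c s) with hA
    set d : α → Fin U.card → D := fun x j => D.projectionOnto C hD.symm (u x (e j)) with hd
    have hkey : ∀ x y, (Matrix.of fun s => if s ∈ U then u x s else if s ∈ V then v y s
        else c s).det = A y (d x) := by
      intro x y
      symm
      refine det_congr_span S _ U hdUS _ (fun s hs => ?_) (fun s hs => ?_)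
      · rw [dif_neg (fun h => hs ((heU s).1 h)), if_neg hs]
      · have h1 := (heU s).2 hs
        rw [dif_pos h1, if_pos hs]
        have h2 : (fun s => if s ∈ U then u x s else if s ∈ V then v y s else c s) '' (S : Set ι) =
            c '' S := by
          refine Set.image_congr fun t ht => ?_
          have h3 := hSc t (Finset.mem_coe.1 ht)
          rw [if_neg h3.1, if_neg h3.2]
        rw [h2, ← hC]
        have h3 : d x h1.choose = D.projectionOnto C hD.symm (u x s) := by
          rw [hd]
          simp only
          rw [h1.choose_spec]
        rw [h3]
        have h4 := Submodule.projection_add_projection_eq_self hD.symm (u x s)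
        rw [Submodule.coe_projectionOnto_apply]
        have h5 : D.projection C hD.symm (u x s) - u x s =
            - (C.projection D hD (u x s)) := by
          rw [sub_eq_iff_eq_add, eq_neg_add_iff_add_eq, add_comm]
          exact h4
        rw [h5]
        refine C.neg_mem ?_
        rw [← Submodule.coe_projectionOnto_apply]
        exact Submodule.coe_mem _
    have hfr : Module.finrank K (⋀[K]^U.card D) = (U.card + V.card).choose U.card := by
      rw [exteriorPower.finrank_eq, hDf]
    set B := Module.finBasisOfFinrankEq K (⋀[K]^U.card D) hfr with hB
    refine ⟨fun t x => B.repr (exteriorPower.ιMulti K U.card (d x)) t,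
      fun t y => exteriorPower.alternatingMapLinearEquiv (A y) (B t), fun x y => ?_⟩
    rw [hkey, ← exteriorPower.alternatingMapLinearEquiv_apply_ιMulti (A y) (d x)]
    conv_lhs => rw [← B.sum_repr (exteriorPower.ιMulti K U.card (d x))]
    rw [map_sum]
    refine Finset.sum_congr rfl fun t _ => ?_
    rw [map_smul, smul_eq_mul]
  · refine ⟨fun _ _ => 0, fun _ _ => 0, fun x y => ?_⟩
    simp only [mul_zero, Finset.sum_const_zero]
    by_contra hne
    have h1 := Matrix.linearIndependent_rows_of_det_ne_zero hne
    refine hli ?_
    have h2 := h1.comp (fun s : S => (s : ι)) Subtype.val_injective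
    have h3 : ((fun i => (Matrix.of fun s => if s ∈ U then u x s else if s ∈ V then v y s
        else c s) i) ∘ fun s : S => (s : ι)) = fun s : S => c s := by
      funext s
      have h3 := hSc s s.2
      change (if (s : ι) ∈ U then u x s else if (s : ι) ∈ V then v y s else c s) = c s
      rw [if_neg h3.1, if_neg h3.2]
    rw [← h3]
    exact h2

end Det

end Pool.Agent.Helper70K1.Perm
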