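import Pool.Agent.Helper70K1.Perm.RowDet

/-!
# Sums of determinants with rows that are affine functions of single rows
-/

set_option autoImplicit false

namespace Pool.Agent.Helper70K1.Perm

open Matrix Finset Equiv

/-! ### Extraction of the linear coefficient -/

theorem exists_extract (K : Type*) [Field K] [Infinite K] (d : ℕ) :
    ∃ ω lam : Fin (d + 1) → K, ∀ m ≤ d, ∑ t, lam t * ω t ^ m = if m = 1 then 1 else 0 := by
  classical
  set ω : Fin (d + 1) → K := fun t => Infinite.natEmbedding K t with hω
  have hinj : Function.Injective ω := fun x y h => Fin.ext ((Infinite.natEmbedding K).injective h)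
  refine ⟨ω, fun t => (Lagrange.basis Finset.univ ω t).coeff 1, fun m hm => ?_⟩
  have h1 : (Polynomial.X ^ m : Polynomial K) = Lagrange.interpolate Finset.univ ω
      (fun t => ω t ^ m) := by
    refine Lagrange.eq_interpolate_of_eval_eq _ hinj.injOn ?_ fun t _ => by simp
    rw [Polynomial.degree_X_pow, Finset.card_univ, Fintype.card_fin]
    exact_mod_cast Nat.lt_succ_of_le hm
  have h2 := congrArg (fun p : Polynomial K => p.coeff 1) h1
  simp only [Polynomial.coeff_X_pow, Lagrange.interpolate_apply, Polynomial.finsetSum_coeff,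
    Polynomial.coeff_C_mul] at h2
  rw [show (if m = 1 then (1 : K) else 0) = if 1 = m then 1 else 0 by simp [eq_comm], h2]
  exact Finset.sum_congr rfl fun t _ => mul_comm _ _

/-! ### Scaled rows -/

theorem permanent_scale {K : Type*} [Field K] {n : ℕ} (τ : Fin n → K)
    (X : Matrix (Fin n) (Fin n) K) :
    (Matrix.of fun j => τ j • X j : Matrix (Fin n) (Fin n) K).permanent =
      (∏ j, τ j) * X.permanent := by
  unfold Matrix.permanent
  rw [Finset.mul_sum]
  refine Finset.sum_congr rfl fun σ _ => ?_
  rw [← Equiv.prod_comp σ τ, ← Finset.prod_mul_distrib]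
  rfl

section Affine

variable {K : Type*} [Field K] {n a : ℕ} {ι : Type*} [Fintype ι] [DecidableEq ι]

/-- The scaling factors of the rows. -/
def scl {d : ℕ} (a : ℕ) (ω : Fin (d + 1) → K) (t : {j : Fin n // j.val < a} → Fin (d + 1))
    (j : Fin n) : K :=
  if h : j.val < a then ω (t ⟨j, h⟩) else 1

theorem prod_scl {d : ℕ} (ω : Fin (d + 1) → K) (t : {j : Fin n // j.val < a} → Fin (d + 1)) :
    ∏ j, scl a ω t j = ∏ q, ω (t q) := by
  classical
  rw [← Finset.prod_filter_mul_prod_filter_not Finset.univ (fun j : Fin n => j.val < a)]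
  have h1 : ∏ j ∈ (Finset.univ.filter fun j : Fin n => ¬ j.val < a), scl a ω t j = 1 :=
    Finset.prod_eq_one fun j hj => by
      rw [Finset.mem_filter] at hj
      rw [scl, dif_neg hj.2]
  rw [h1, mul_one, Finset.prod_subtype (p := fun j : Fin n => j.val < a) _ (fun j => by simp)]
  refine Finset.prod_congr rfl fun q _ => ?_
  rw [scl, dif_pos q.2]

/-- The number of rows in `P` that depend on the row `q`. -/
def mlt (row : ι → Option (Fin n)) (P : Finset ι) (q : Fin n) : ℕ :=
  (P.filter fun s => row s = some q).card

omit [Fintype ι] [DecidableEq ι] in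
theorem prod_scl_rows {d : ℕ} (row : ι → Option (Fin n)) (ω : Fin (d + 1) → K)
    (t : {j : Fin n // j.val < a} → Fin (d + 1)) (P : Finset ι)
    (hP : ∀ s ∈ P, ∃ j, row s = some j ∧ j.val < a) :
    ∏ s ∈ P, (row s).elim 1 (scl a ω t) = ∏ q, ω (t q) ^ mlt row P q.1 := by
  classical
  have h1 : ∀ s ∈ P, (row s).elim 1 (scl a ω t) =
      ∏ q : {j : Fin n // j.val < a}, if row s = some q.1 then ω (t q) else 1 := by
    intro s hs
    obtain ⟨j, hj, hja⟩ := hP s hs
    rw [hj, Option.elim_some, scl, dif_pos hja]
    rw [Finset.prod_eq_single (⟨j, hja⟩ : {j : Fin n // j.val < a})]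
    · simp
    · intro q _ hq
      rw [if_neg]
      intro h2
      rw [Option.some.injEq] at h2
      exact hq (Subtype.ext h2.symm)
    · intro h2
      exact absurd (Finset.mem_univ _) h2
  rw [Finset.prod_congr rfl h1, Finset.prod_comm]
  refine Finset.prod_congr rfl fun q _ => ?_
  rw [← Finset.prod_filter, Finset.prod_const]
  rfl

theorem sum_extract {d : ℕ} {ω lam : Fin (d + 1) → K}
    (h : ∀ m ≤ d, ∑ t, lam t * ω t ^ m = if m = 1 then 1 else 0)
    (m : {j : Fin n // j.val < a} → ℕ) (hm : ∀ q, m q ≤ d) :
    ∑ t : {j : Fin n // j.val < a} → Fin (d + 1), (∏ q, lam (t q)) * ∏ q, ω (t q) ^ m q =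
      if ∀ q, m q = 1 then 1 else 0 := by
  classical
  have h1 : ∏ q : {j : Fin n // j.val < a}, ∑ t, lam t * ω t ^ m q =
      ∑ t : {j : Fin n // j.val < a} → Fin (d + 1), (∏ q, lam (t q)) * ∏ q, ω (t q) ^ m q := by
    rw [Finset.prod_univ_sum]
    rw [Fintype.piFinset_univ]
    exact Finset.sum_congr rfl fun t _ => Finset.prod_mul_distrib
  rw [← h1]
  split_ifs with h2
  · exact Finset.prod_eq_one fun q _ => by rw [h _ (hm q), if_pos (h2 q)]
  · push Not at h2
    obtain ⟨q, hq⟩ := h2
    exact Finset.prod_eq_zero (Finset.mem_univ q) (by rw [h _ (hm q), if_neg hq])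

/-- The choices of one row in each group. -/
theorem card_choices {g : ℕ} (row : ι → Option (Fin n))
    (hrow : ∀ j : Fin n, (Finset.univ.filter fun s => row s = some j).card ≤ g) (ha : a ≤ n) :
    (((Finset.univ.filter fun s => ∃ j, row s = some j ∧ j.val < a).powerset.filter
      fun P => ∀ q : {j : Fin n // j.val < a}, mlt row P q.1 = 1).card ≤ g ^ a) ∧
    ∀ P ∈ (Finset.univ.filter fun s => ∃ j, row s = some j ∧ j.val < a).powerset.filter
      (fun P => ∀ q : {j : Fin n // j.val < a}, mlt row P q.1 = 1), P.card ≤ a := by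
  classical
  have hQ : Fintype.card {j : Fin n // j.val < a} = a := by
    rw [Fintype.card_subtype, card_filter_val ha]
  -- every choice is the image of a function
  have key : ∀ P ∈ (Finset.univ.filter fun s => ∃ j, row s = some j ∧ j.val < a).powerset.filter
      (fun P => ∀ q : {j : Fin n // j.val < a}, mlt row P q.1 = 1),
      ∃ F : {j : Fin n // j.val < a} → ι, (∀ q, row (F q) = some q.1) ∧
        Finset.univ.image F = P := by
    intro P hP
    rw [Finset.mem_filter, Finset.mem_powerset] at hP
    have h1 : ∀ q : {j : Fin n // j.val < a}, ∃ s, (P.filter fun s => row s = some q.1) = {s} :=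
      fun q => Finset.card_eq_one.1 (hP.2 q)
    choose F hF using h1
    have h2 : ∀ q, F q ∈ P ∧ row (F q) = some q.1 := fun q => by
      have : F q ∈ P.filter fun s => row s = some q.1 := by
        rw [hF q]; exact Finset.mem_singleton_self _
      rwa [Finset.mem_filter] at this
    refine ⟨F, fun q => (h2 q).2, ?_⟩
    ext s
    rw [Finset.mem_image]
    constructor
    · rintro ⟨q, _, rfl⟩
      exact (h2 q).1
    · intro hs
      have h3 := hP.1 hs
      rw [Finset.mem_filter] at h3
      obtain ⟨-, j, hj, hja⟩ := h3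
      refine ⟨⟨j, hja⟩, Finset.mem_univ _, ?_⟩
      have h4 : s ∈ P.filter fun s => row s = some j := Finset.mem_filter.2 ⟨hs, hj⟩
      have h5 := hF ⟨j, hja⟩
      simp only at h5
      rw [h5, Finset.mem_singleton] at h4
      exact h4.symm
  constructor
  · have h1 : (((Finset.univ.filter fun s => ∃ j, row s = some j ∧ j.val < a).powerset.filter
        fun P => ∀ q : {j : Fin n // j.val < a}, mlt row P q.1 = 1).card ≤
        (Fintype.piFinset fun q : {j : Fin n // j.val < a} =>
          Finset.univ.filter fun s => row s = some q.1).card) := by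
      refine Finset.card_le_card_of_surjOn (fun F => Finset.univ.image F) ?_
      intro P hP
      obtain ⟨F, hF1, hF2⟩ := key P (Finset.mem_coe.1 hP)
      refine ⟨F, ?_, hF2⟩
      rw [Finset.mem_coe, Fintype.mem_piFinset]
      intro q
      rw [Finset.mem_filter]
      exact ⟨Finset.mem_univ _, hF1 q⟩
    refine h1.trans ?_
    rw [Fintype.card_piFinset]
    refine (Finset.prod_le_pow_card _ _ g fun q _ => hrow q.1).trans ?_
    rw [Finset.card_univ, hQ]
  · intro P hP
    obtain ⟨F, -, hF2⟩ := key P hP
    have h1 := Finset.card_image_le (s := (Finset.univ : Finset {j : Fin n // j.val < a})) (f := F)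
    rw [hF2, Finset.card_univ, hQ] at h1
    exact h1

/-- The rows of a matrix with affine rows. -/
def affRows (c : ι → ι → K) (L : ι → (Fin n → K) →ₗ[K] (ι → K)) (row : ι → Option (Fin n))
    (X : Fin n → Fin n → K) (s : ι) : ι → K :=
  c s + (row s).elim 0 fun j => L s (X j)

/-- The expansion of the determinant of a matrix with affine rows. -/
theorem det_affRows_scale {d : ℕ} (c : ι → ι → K) (L : ι → (Fin n → K) →ₗ[K] (ι → K))
    (row : ι → Option (Fin n)) (ω : Fin (d + 1) → K)
    (t : {j : Fin n // j.val < a} → Fin (d + 1)) (X : Fin n → Fin n → K) :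
    (Matrix.of (affRows c L row fun j => scl a ω t j • X j)).det =
      ∑ P ∈ (Finset.univ.filter fun s => ∃ j, row s = some j ∧ j.val < a).powerset,
        (∏ q, ω (t q) ^ mlt row P q.1) *
        (Matrix.of (P.piecewise (fun s => (row s).elim 0 fun j => L s (X j))
          (fun s => if ∃ j, row s = some j ∧ j.val < a then c s else affRows c L row X s))).det := by
  classical
  set U : Finset ι := Finset.univ.filter fun s => ∃ j, row s = some j ∧ j.val < a with hU
  set l : ι → ι → K := fun s => (row s).elim 0 fun j => L s (X j) with hl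
  set m' : ι → ι → K := fun s => if ∃ j, row s = some j ∧ j.val < a then c s else
    affRows c L row X s with hm'
  set m : ι → ι → K := fun s => (row s).elim 1 (scl a ω t) • l s with hm
  set f : MultilinearMap K (fun _ : ι => ι → K) K :=
    (Matrix.detRowAlternating : (ι → K) [⋀^ι]→ₗ[K] K).toMultilinearMap with hf
  have hfd : ∀ R : ι → ι → K, f R = (Matrix.of R).det := fun R => rfl
  have h1 : (affRows c L row fun j => scl a ω t j • X j) = U.piecewise (m + m') m' := by
    funext s
    by_cases hs : s ∈ U
    · rw [Finset.piecewise_eq_of_mem _ _ _ hs, Pi.add_apply]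
      rw [hU, Finset.mem_filter] at hs
      obtain ⟨-, j, hj, hja⟩ := hs
      have h2 : m' s = c s := by
        rw [hm']
        simp only
        rw [if_pos ⟨j, hj, hja⟩]
      have h3 : m s = scl a ω t j • L s (X j) := by
        rw [hm, hl]
        simp only [hj, Option.elim_some]
      rw [h2, h3, affRows, hj, Option.elim_some, map_smul, add_comm]
    · rw [Finset.piecewise_eq_of_notMem _ _ _ hs]
      have hs' : ¬ ∃ j, row s = some j ∧ j.val < a := fun h => hs (by
        rw [hU, Finset.mem_filter]
        exact ⟨Finset.mem_univ _, h⟩)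
      rw [hm']
      simp only
      rw [if_neg hs', affRows, affRows]
      congr 1
      cases hr : row s with
      | none => rfl
      | some j =>
        have hja : ¬ j.val < a := fun h => hs' ⟨j, hr, h⟩
        rw [Option.elim_some, Option.elim_some, scl, dif_neg hja, one_smul]
  rw [h1, ← hfd, MultilinearMap.map_piecewise_add]
  refine Finset.sum_congr rfl fun P hP => ?_
  rw [← hfd]
  have h2 : P.piecewise m m' = P.piecewise (fun s => (row s).elim 1 (scl a ω t) •
      (P.piecewise l m') s) (P.piecewise l m') := by
    funext s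
    by_cases hs : s ∈ P
    · rw [Finset.piecewise_eq_of_mem _ _ _ hs, Finset.piecewise_eq_of_mem _ _ _ hs,
        Finset.piecewise_eq_of_mem _ _ _ hs]
    · rw [Finset.piecewise_eq_of_notMem _ _ _ hs, Finset.piecewise_eq_of_notMem _ _ _ hs,
        Finset.piecewise_eq_of_notMem _ _ _ hs]
  rw [h2, MultilinearMap.map_piecewise_smul, smul_eq_mul]
  rw [prod_scl_rows row ω t P fun s hs => ?_]
  have h3 := (Finset.mem_powerset.1 hP) hs
  rw [hU, Finset.mem_filter] at h3
  exact h3.2

end Affine

/-- If the permanent is a sum of `k` determinants of matrices whose rows are affine functions of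
single rows, at most `g` of each row, then `k` is large. -/
theorem rowAffine {K : Type*} [Field K] [Infinite K] {n k g a : ℕ}
    (hK : ((n.factorial : ℕ) : K) ≠ 0)
    {ι : Fin k → Type*} [∀ i, Fintype (ι i)] [∀ i, DecidableEq (ι i)]
    (row : ∀ i, ι i → Option (Fin n))
    (hrow : ∀ i (j : Fin n), (Finset.univ.filter fun s => row i s = some j).card ≤ g)
    (c : ∀ i, ι i → ι i → K) (L : ∀ i, ι i → (Fin n → K) →ₗ[K] (ι i → K))
    (h : ∀ X : Matrix (Fin n) (Fin n) K,
      ∑ i, (Matrix.of (affRows (c i) (L i) (row i) X)).det = X.permanent) (ha : 2 * a ≤ n) :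
    n.choose a ≤ k * (g ^ a * ((g + 1) * a).choose a) := by
  classical
  obtain ⟨ω, lam, hω⟩ := exists_extract K (g + 1)
  -- the groups of rows
  set U : ∀ i, Finset (ι i) := fun i => Finset.univ.filter fun s =>
    ∃ j, row i s = some j ∧ j.val < a with hU
  set V : ∀ i, Finset (ι i) := fun i => Finset.univ.filter fun s =>
    ∃ j, row i s = some j ∧ a ≤ j.val ∧ j.val < 2 * a with hV
  set PP : ∀ i, Finset (Finset (ι i)) := fun i => (U i).powerset.filter
    fun P => ∀ q : {j : Fin n // j.val < a}, mlt (row i) P q.1 = 1 with hPP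
  have hUV : ∀ i, Disjoint (U i) (V i) := by
    intro i
    rw [Finset.disjoint_left]
    intro s h1 h2
    rw [hU, Finset.mem_filter] at h1
    rw [hV, Finset.mem_filter] at h2
    obtain ⟨-, j, h3, h4⟩ := h1
    obtain ⟨-, j', h5, h6, h7⟩ := h2
    rw [h3, Option.some.injEq] at h5
    rw [h5] at h4
    omega
  have hVc : ∀ i, (V i).card ≤ g * a := by
    intro i
    have h1 : V i ⊆ ((Finset.univ : Finset (Fin n)).filter fun j =>
        a ≤ j.val ∧ j.val < 2 * a).biUnion fun j =>
        Finset.univ.filter fun s => row i s = some j := by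
      intro s hs
      rw [hV, Finset.mem_filter] at hs
      obtain ⟨-, j, h3, h4⟩ := hs
      rw [Finset.mem_biUnion]
      exact ⟨j, by simp [h4], by simp [h3]⟩
    have h2 : ((Finset.univ : Finset (Fin n)).filter fun j => a ≤ j.val ∧ j.val < 2 * a).card =
        a := by
      have h3 := Finset.card_filter_add_card_filter_not (s := (Finset.univ : Finset
        (Fin n)).filter fun j => j.val < 2 * a) (fun j => a ≤ j.val)
      rw [card_filter_val ha, Finset.filter_filter, Finset.filter_filter] at h3
      have h4 : ((Finset.univ : Finset (Fin n)).filter fun j => j.val < 2 * a ∧ ¬ a ≤ j.val) =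
          (Finset.univ : Finset (Fin n)).filter fun j => j.val < a :=
        Finset.filter_congr fun j _ => by omega
      have h5 : ((Finset.univ : Finset (Fin n)).filter fun j => j.val < 2 * a ∧ a ≤ j.val) =
          (Finset.univ : Finset (Fin n)).filter fun j => a ≤ j.val ∧ j.val < 2 * a :=
        Finset.filter_congr fun j _ => by omega
      rw [h4, h5, card_filter_val (by omega)] at h3
      omega
    refine (Finset.card_le_card h1).trans (Finset.card_biUnion_le.trans
      ((Finset.sum_le_card_nsmul _ _ g fun j _ => hrow i j).trans ?_))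
    rw [h2, smul_eq_mul, mul_comm]
  have hch := fun i => card_choices (row i) (hrow i) (a := a) (by omega)
  -- the matrices of the expansion
  set N : ∀ i, Finset (ι i) → (Fin n → Fin n → K) → ι i → ι i → K := fun i P X =>
    P.piecewise (fun s => (row i s).elim 0 fun j => L i s (X j))
      (fun s => if ∃ j, row i s = some j ∧ j.val < a then c i s else
        affRows (c i) (L i) (row i) X s) with hN
  -- extraction
  have hext : ∀ X : Matrix (Fin n) (Fin n) K,
      X.permanent = ∑ i, ∑ P ∈ PP i, (Matrix.of (N i P X)).det := by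
    intro X
    have h1 : ∀ t : {j : Fin n // j.val < a} → Fin (g + 1 + 1),
        (∏ q, ω (t q)) * X.permanent = ∑ i, ∑ P ∈ (U i).powerset,
          (∏ q, ω (t q) ^ mlt (row i) P q.1) * (Matrix.of (N i P X)).det := by
      intro t
      have h2 := h (Matrix.of fun j => scl a ω t j • X j)
      rw [permanent_scale, prod_scl] at h2
      rw [← h2]
      refine Finset.sum_congr rfl fun i _ => ?_
      exact det_affRows_scale (c i) (L i) (row i) ω t X
    have h2 : ∑ t : {j : Fin n // j.val < a} → Fin (g + 1 + 1), (∏ q, lam (t q)) *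
        ((∏ q, ω (t q)) * X.permanent) = X.permanent := by
      have h3 := sum_extract (n := n) (a := a) hω (fun _ => 1) (fun _ => by omega)
      simp only [pow_one, implies_true, if_true] at h3
      simp only [← mul_assoc, ← Finset.sum_mul]
      rw [h3, one_mul]
    rw [← h2]
    simp only [h1]
    simp only [Finset.mul_sum]
    rw [Finset.sum_comm]
    refine Finset.sum_congr rfl fun i _ => ?_
    rw [Finset.sum_comm]
    rw [hPP]
    simp only
    rw [Finset.sum_filter]
    refine Finset.sum_congr rfl fun P hP => ?_
    simp only [← mul_assoc, ← Finset.sum_mul]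
    have hmg : ∀ q : {j : Fin n // j.val < a}, mlt (row i) P q.1 ≤ g + 1 := by
      intro q
      refine le_trans (Finset.card_le_card ?_) ((hrow i q.1).trans (Nat.le_succ g))
      exact Finset.filter_subset_filter _ (Finset.subset_univ P)
    rw [sum_extract hω (fun q => mlt (row i) P q.1) hmg]
    split_ifs <;> simp
  -- separation
  have hPV : ∀ i, ∀ P ∈ PP i, Disjoint P (V i) := by
    intro i P hP
    rw [hPP, Finset.mem_filter, Finset.mem_powerset] at hP
    exact Finset.disjoint_of_subset_left hP.1 (hUV i)
  choose f hh hfh using fun i (P : {P // P ∈ PP i}) => det_sep (K := K) P.1 (V i) (hPV i P.1 P.2)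
    (fun (A : Finset (Fin n)) s => (row i s).elim 0 fun j => L i s (tX K a A ∅ j))
    (fun (T : Finset (Fin n)) s => affRows (c i) (L i) (row i) (tX K a ∅ T) s)
    (fun s => if ∃ j, row i s = some j ∧ j.val < a then c i s else
      affRows (c i) (L i) (row i) (tX K a ∅ ∅) s)
  have hdet : ∀ i (P : {P // P ∈ PP i}) (A T : Finset (Fin n)), A.card = a → T.card ≤ a →
      (Matrix.of (N i P.1 (tX K a A T))).det = ∑ t, f i P t A * hh i P t T := by
    intro i P A T hA hT
    rw [← hfh i P A T]
    congr 1
    congr 1
    funext s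
    rw [hN]
    simp only
    have hPU0 : ∀ P' ∈ PP i, ∀ s ∈ P', ∃ j, row i s = some j ∧ j.val < a := by
      intro P' h1 s hs
      rw [hPP, Finset.mem_filter, Finset.mem_powerset] at h1
      have h2 := h1.1 hs
      rw [hU, Finset.mem_filter] at h2
      exact h2.2
    have hPU := hPU0 P.1 P.2
    by_cases hs : s ∈ P.1
    · rw [Finset.piecewise_eq_of_mem _ _ _ hs, if_pos hs]
      obtain ⟨j, hj, hja⟩ := hPU s hs
      rw [hj, Option.elim_some, Option.elim_some, tX_row_left A T ∅ hja]
    · rw [Finset.piecewise_eq_of_notMem _ _ _ hs, if_neg hs]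
      by_cases hsU : ∃ j, row i s = some j ∧ j.val < a
      · have hsV : s ∉ V i := fun h1 => Finset.disjoint_left.1 (hUV i) (by
          rw [hU, Finset.mem_filter]
          exact ⟨Finset.mem_univ _, hsU⟩) h1
        rw [if_pos hsU, if_neg hsV, if_pos hsU]
      · rw [if_neg hsU]
        by_cases hsV : s ∈ V i
        · rw [if_pos hsV]
          rw [hV, Finset.mem_filter] at hsV
          obtain ⟨-, j, hj, hja, -⟩ := hsV
          unfold affRows
          rw [hj, Option.elim_some, Option.elim_some,
            tX_row_right A ∅ T hA.le (by simp) hja]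
        · rw [if_neg hsV, if_neg hsU]
          unfold affRows
          congr 1
          cases hr : row i s with
          | none => rfl
          | some j =>
            have h1 : ¬ j.val < a := fun h1 => hsU ⟨j, hr, h1⟩
            have h2 : ¬ j.val < 2 * a := fun h2 => hsV (by
              rw [hV, Finset.mem_filter]
              exact ⟨Finset.mem_univ _, j, hr, by omega, h2⟩)
            rw [Option.elim_some, Option.elim_some,
              tX_row_const A ∅ T ∅ hA.le (by simp) hT (by simp) (by omega)]
  set J := Σ i : Fin k, Σ P : {P // P ∈ PP i},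
    Fin ((P.1.card + (V i).card).choose P.1.card)
  have hfac := lower hK ha (J := J) (fun t A => f t.1 t.2.1 t.2.2 A)
    (fun t T => hh t.1 t.2.1 t.2.2 T) ?_
  · refine hfac.trans ?_
    rw [Fintype.card_sigma]
    simp only [Fintype.card_sigma, Fintype.card_fin]
    refine (Finset.sum_le_card_nsmul _ _ (g ^ a * ((g + 1) * a).choose a) fun i _ => ?_).trans ?_
    · refine (Finset.sum_le_card_nsmul _ _ (((g + 1) * a).choose a) fun P _ => ?_).trans ?_
      · rw [show (g + 1) * a = a + g * a by ring]
        exact choose_mono ((hch i).2 P.1 P.2) (hVc i)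
      · rw [Finset.card_univ, Fintype.card_coe, smul_eq_mul]
        exact Nat.mul_le_mul_right _ (hch i).1
    · rw [Finset.card_univ, Fintype.card_fin, smul_eq_mul]
  · intro A T hA hT
    rw [hext, Fintype.sum_sigma]
    refine Finset.sum_congr rfl fun i _ => ?_
    rw [Fintype.sum_sigma, ← Finset.sum_coe_sort (PP i)]
    exact Finset.sum_congr rfl fun P _ => hdet i P A T hA hT

end Pool.Agent.Helper70K1.Perm
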