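import Pool.Agent.Helper70K1.Perm.DetSep

/-!
# Sums of determinants with rows depending on single rows
-/

set_option autoImplicit false

namespace Pool.Agent.Helper70K1.Perm

open Matrix Finset Equiv

/-! ### Permutations with prescribed values -/

theorem card_perm_fix {n : ℕ} (J : Finset (Fin n)) (φ : Fin n → Fin n) (h : Set.InjOn φ J) :
    ((Finset.univ : Finset (Perm (Fin n))).filter fun σ => ∀ j ∈ J, σ j = φ j).card =
      (n - J.card).factorial := by
  classical
  -- an extension
  set e : {x // x ∈ J} ≃ {x // x ∈ J.image φ} :=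
    Equiv.ofBijective (fun x => ⟨φ x, Finset.mem_image_of_mem φ x.2⟩) ⟨fun x y hxy => by
      have h1 : φ x = φ y := congrArg Subtype.val hxy
      exact Subtype.ext (h x.2 y.2 h1), fun y => by
      obtain ⟨x, hx, hxy⟩ := Finset.mem_image.1 y.2
      exact ⟨⟨x, hx⟩, Subtype.ext hxy⟩⟩ with he
  set π : Perm (Fin n) := e.extendSubtype with hπ
  have hπJ : ∀ j ∈ J, π j = φ j := by
    intro j hj
    rw [hπ, Equiv.extendSubtype_apply_of_mem e j hj]
    rfl
  have h1 : ((Finset.univ : Finset (Perm (Fin n))).filter fun σ => ∀ j ∈ J, σ j = φ j).card =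
      ((Finset.univ : Finset (Perm (Fin n))).filter fun τ => ∀ j ∈ J, τ j = j).card := by
    refine Finset.card_bij (fun σ _ => π⁻¹ * σ) ?_ ?_ ?_
    · intro σ hσ
      rw [Finset.mem_filter] at hσ ⊢
      refine ⟨Finset.mem_univ _, fun j hj => ?_⟩
      rw [Perm.mul_apply, hσ.2 j hj, ← hπJ j hj]
      simp
    · intro σ _ τ _ hst
      exact mul_left_cancel hst
    · intro τ hτ
      rw [Finset.mem_filter] at hτ
      refine ⟨π * τ, ?_, by group⟩
      rw [Finset.mem_filter]
      refine ⟨Finset.mem_univ _, fun j hj => ?_⟩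
      rw [Perm.mul_apply, hτ.2 j hj, hπJ j hj]
  rw [h1]
  have h2 : ((Finset.univ : Finset (Perm (Fin n))).filter fun τ => ∀ j ∈ J, τ j = j).card =
      Fintype.card {f : Perm (Fin n) // ∀ a, ¬ (a ∉ J) → f a = a} := by
    rw [Fintype.card_subtype]
    congr 1
    ext τ
    simp
  rw [h2, ← Fintype.card_congr (Equiv.Perm.subtypeEquivSubtypePerm fun a => a ∉ J),
    Fintype.card_perm]
  congr 1
  rw [Fintype.card_subtype_compl, Fintype.card_fin, Fintype.card_coe]

/-- The matrix with rows of ones except for given unit rows. -/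
def unitRows (K : Type*) [Zero K] [One K] {n : ℕ} (J : Finset (Fin n)) (φ : Fin n → Fin n) :
    Matrix (Fin n) (Fin n) K :=
  Matrix.of fun j c => if j ∈ J then (if c = φ j then 1 else 0) else 1

theorem permanent_unitRows (K : Type*) [Field K] {n : ℕ} (J : Finset (Fin n))
    (φ : Fin n → Fin n) [Decidable (Set.InjOn φ (J : Set (Fin n)))] :
    (unitRows K J φ).permanent =
      if Set.InjOn φ (J : Set (Fin n)) then (((n - J.card).factorial : ℕ) : K) else 0 := by
  classical
  have h1 : (unitRows K J φ).permanent =
      ((((Finset.univ : Finset (Perm (Fin n))).filter fun σ => ∀ j ∈ J, σ j = φ j).card : ℕ) :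
        K) := by
    rw [← Matrix.permanent_transpose, Matrix.permanent, Finset.card_filter, Nat.cast_sum]
    refine Finset.sum_congr rfl fun σ _ => ?_
    by_cases hσ : ∀ j ∈ J, σ j = φ j
    · rw [if_pos hσ, Nat.cast_one]
      refine Finset.prod_eq_one fun j _ => ?_
      simp only [Matrix.transpose_apply, unitRows, Matrix.of_apply]
      by_cases hj : j ∈ J
      · rw [if_pos hj, if_pos (hσ j hj)]
      · rw [if_neg hj]
    · rw [if_neg hσ, Nat.cast_zero]
      push Not at hσ
      obtain ⟨j, hj, hj2⟩ := hσ
      refine Finset.prod_eq_zero (Finset.mem_univ j) ?_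
      simp only [Matrix.transpose_apply, unitRows, Matrix.of_apply]
      rw [if_pos hj, if_neg hj2]
  rw [h1]
  split_ifs with h
  · rw [card_perm_fix J φ h]
  · have h2 : ((Finset.univ : Finset (Perm (Fin n))).filter fun σ => ∀ j ∈ J, σ j = φ j).card =
        0 := by
      rw [Finset.card_eq_zero, Finset.filter_eq_empty_iff]
      intro σ _ hσ
      refine h fun x hx y hy hxy => ?_
      rw [← hσ x hx, ← hσ y hy] at hxy
      exact σ.injective hxy
    rw [h2, Nat.cast_zero]

/-! ### Test matrices -/

section Test

variable {n : ℕ}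

/-- The rows of the test matrix that are unit rows. -/
def tJ (a : ℕ) (A T : Finset (Fin n)) : Finset (Fin n) :=
  Finset.univ.filter fun j => j.val < A.card ∨ (a ≤ j.val ∧ j.val < a + T.card)

/-- The positions of the ones in the unit rows. -/
def tphi (a : ℕ) (A T : Finset (Fin n)) (j : Fin n) : Fin n :=
  if h : j.val < A.card then A.orderEmbOfFin rfl ⟨j.val, h⟩
  else if h : j.val - a < T.card then T.orderEmbOfFin rfl ⟨j.val - a, h⟩ else j

/-- The test matrix: `A` gives the first unit rows, `T` the next ones, all other rows consist of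
ones. -/
def tX (K : Type*) [Zero K] [One K] (a : ℕ) (A T : Finset (Fin n)) : Matrix (Fin n) (Fin n) K :=
  unitRows K (tJ a A T) (tphi a A T)

theorem tX_zero_one {K : Type*} [Zero K] [One K] (a : ℕ) (A T : Finset (Fin n)) (i j : Fin n) :
    tX K a A T i j = 0 ∨ tX K a A T i j = 1 := by
  unfold tX unitRows
  simp only [Matrix.of_apply]
  split_ifs <;> simp

theorem tX_row_left {K : Type*} [Zero K] [One K] {a : ℕ} (A T T' : Finset (Fin n)) {j : Fin n}
    (hj : j.val < a) : tX K a A T j = tX K a A T' j := by
  funext c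
  unfold tX unitRows tJ tphi
  simp only [Matrix.of_apply, Finset.mem_filter, Finset.mem_univ, true_and]
  by_cases h : j.val < A.card
  · simp [h]
  · have h1 : ¬ (j.val < A.card ∨ (a ≤ j.val ∧ j.val < a + T.card)) := by omega
    have h2 : ¬ (j.val < A.card ∨ (a ≤ j.val ∧ j.val < a + T'.card)) := by omega
    rw [if_neg h1, if_neg h2]

theorem tX_row_right {K : Type*} [Zero K] [One K] {a : ℕ} (A A' T : Finset (Fin n)) {j : Fin n}
    (hA : A.card ≤ a) (hA' : A'.card ≤ a) (hj : a ≤ j.val) : tX K a A T j = tX K a A' T j := by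
  funext c
  unfold tX unitRows tJ tphi
  simp only [Matrix.of_apply, Finset.mem_filter, Finset.mem_univ, true_and]
  have h1 : ¬ j.val < A.card := by omega
  have h2 : ¬ j.val < A'.card := by omega
  simp [h1, h2]

theorem tX_row_const {K : Type*} [Zero K] [One K] {a : ℕ} (A A' T T' : Finset (Fin n)) {j : Fin n}
    (hA : A.card ≤ a) (hA' : A'.card ≤ a) (hT : T.card ≤ a) (hT' : T'.card ≤ a)
    (hj : 2 * a ≤ j.val) : tX K a A T j = tX K a A' T' j := by
  funext c
  unfold tX unitRows tJ
  simp only [Matrix.of_apply, Finset.mem_filter, Finset.mem_univ, true_and]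
  have h1 : ¬ (j.val < A.card ∨ (a ≤ j.val ∧ j.val < a + T.card)) := by omega
  have h2 : ¬ (j.val < A'.card ∨ (a ≤ j.val ∧ j.val < a + T'.card)) := by omega
  rw [if_neg h1, if_neg h2]

theorem card_filter_val {m : ℕ} (h : m ≤ n) :
    ((Finset.univ : Finset (Fin n)).filter fun j => j.val < m).card = m := by
  have h1 : ((Finset.univ : Finset (Fin n)).filter fun j => j.val < m) =
      (Finset.univ : Finset (Fin m)).map (Fin.castLEEmb h) := by
    ext j
    simp only [Finset.mem_filter, Finset.mem_univ, true_and, Finset.mem_map]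
    constructor
    · intro hj
      exact ⟨⟨j.val, hj⟩, rfl⟩
    · rintro ⟨i, rfl⟩
      exact i.2
  rw [h1, Finset.card_map, Finset.card_univ, Fintype.card_fin]

theorem permanent_tX (K : Type*) [Field K] {a : ℕ} {A T : Finset (Fin n)} (hA : A.card = a)
    (hT : T.card ≤ a) (ha : 2 * a ≤ n) :
    (tX K a A T).permanent = if Disjoint A T then (((n - (a + T.card)).factorial : ℕ) : K)
      else 0 := by
  classical
  have hJ : tJ a A T = (Finset.univ : Finset (Fin n)).filter fun j => j.val < a + T.card := by
    unfold tJ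
    refine Finset.filter_congr fun j _ => ?_
    omega
  have hJc : (tJ a A T).card = a + T.card := by
    rw [hJ, card_filter_val (by omega)]
  have himg : (tJ a A T).image (tphi a A T) = A ∪ T := by
    ext c
    rw [Finset.mem_image, Finset.mem_union, hJ]
    constructor
    · rintro ⟨j, hj, rfl⟩
      rw [Finset.mem_filter] at hj
      unfold tphi
      by_cases h : j.val < A.card
      · rw [dif_pos h]
        exact Or.inl (Finset.orderEmbOfFin_mem A rfl _)
      · have h2 : j.val - a < T.card := by omega
        rw [dif_neg h, dif_pos h2]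
        exact Or.inr (Finset.orderEmbOfFin_mem T rfl _)
    · rintro (hc | hc)
      · have h1 : c ∈ Set.range (A.orderEmbOfFin rfl) := by
          rw [Finset.range_orderEmbOfFin]; exact hc
        obtain ⟨i, rfl⟩ := h1
        have h2 := i.2
        refine ⟨⟨i.val, by omega⟩, ?_, ?_⟩
        · rw [Finset.mem_filter]
          exact ⟨Finset.mem_univ _, by simp only; omega⟩
        · unfold tphi
          rw [dif_pos (by simp)]
      · have h1 : c ∈ Set.range (T.orderEmbOfFin rfl) := by
          rw [Finset.range_orderEmbOfFin]; exact hc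
        obtain ⟨i, rfl⟩ := h1
        have h2 := i.2
        refine ⟨⟨a + i.val, by omega⟩, ?_, ?_⟩
        · rw [Finset.mem_filter]
          exact ⟨Finset.mem_univ _, by simp only; omega⟩
        · unfold tphi
          rw [dif_neg (by simp only; omega), dif_pos (by simp)]
          simp
  unfold tX
  rw [permanent_unitRows, hJc]
  have hiff : Set.InjOn (tphi a A T) (tJ a A T : Set (Fin n)) ↔ Disjoint A T := by
    rw [← Finset.card_image_iff, himg, hJc, ← hA]
    exact Finset.card_union_eq_card_add_card
  simp only [hiff]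

end Test

/-! ### The lower bound -/

theorem card_le_of_delta {K I J : Type*} [Field K] [Fintype I] [DecidableEq I] [Fintype J]
    (F : I → J → K) (G : J → I → K)
    (h : ∀ A S, ∑ t, F A t * G t S = if A = S then 1 else 0) :
    Fintype.card I ≤ Fintype.card J := by
  classical
  have h1 : Matrix.of F * Matrix.of G = (1 : Matrix I I K) := by
    ext A S
    rw [Matrix.mul_apply, Matrix.one_apply]
    exact h A S
  have h2 := Matrix.rank_mul_le_left (Matrix.of F) (Matrix.of G)
  rw [h1, Matrix.rank_one] at h2
  exact h2.trans (Matrix.rank_le_card_width _)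

theorem choose_mono {x y x' y' : ℕ} (hx : x ≤ x') (hy : y ≤ y') :
    (x + y).choose x ≤ (x' + y').choose x' := by
  calc (x + y).choose x = (x + y).choose y := Nat.choose_symm_add
    _ ≤ (x' + y).choose y := Nat.choose_le_choose _ (by omega)
    _ = (x' + y).choose x' := Nat.choose_symm_add.symm
    _ ≤ (x' + y').choose x' := Nat.choose_le_choose _ (by omega)

theorem sum_delta {K : Type*} [Field K] {n a : ℕ} (hK : ((n.factorial : ℕ) : K) ≠ 0)
    {A S : Finset (Fin n)} (hA : A.card = a) (hS : S.card = a) (ha : 2 * a ≤ n) :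
    ∑ T ∈ S.powerset, (-1 : K) ^ T.card * (((n - (a + T.card)).factorial : ℕ) : K)⁻¹ *
      (tX K a A T).permanent = if A = S then 1 else 0 := by
  classical
  have h1 : ∀ T ∈ S.powerset, (-1 : K) ^ T.card * (((n - (a + T.card)).factorial : ℕ) : K)⁻¹ *
      (tX K a A T).permanent = if Disjoint A T then (((-1 : ℤ) ^ T.card : ℤ) : K) else 0 := by
    intro T hT
    have h2 : T.card ≤ a := hS ▸ Finset.card_le_card (Finset.mem_powerset.1 hT)
    rw [permanent_tX K hA h2 ha]
    split_ifs with h3
    · have h4 : (((n - (a + T.card)).factorial : ℕ) : K) ≠ 0 := by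
        intro h5
        refine hK ?_
        obtain ⟨q, hq⟩ := Nat.factorial_dvd_factorial (Nat.sub_le n (a + T.card))
        rw [hq, Nat.cast_mul, h5, zero_mul]
      rw [mul_assoc, inv_mul_cancel₀ h4, mul_one]
      push_cast
      rfl
    · rw [mul_zero]
  rw [Finset.sum_congr rfl h1, ← Finset.sum_filter]
  have h2 : (S.powerset.filter fun T => Disjoint A T) = (S \ A).powerset := by
    ext T
    rw [Finset.mem_filter, Finset.mem_powerset, Finset.mem_powerset, Finset.subset_sdiff]
    constructor
    · rintro ⟨h3, h4⟩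
      exact ⟨h3, h4.symm⟩
    · rintro ⟨h3, h4⟩
      exact ⟨h3, h4.symm⟩
  rw [h2, ← Int.cast_sum, Finset.sum_powerset_neg_one_pow_card]
  have h3 : S \ A = ∅ ↔ A = S := by
    rw [Finset.sdiff_eq_empty_iff_subset]
    constructor
    · intro h
      exact (Finset.eq_of_subset_of_card_le h (by omega)).symm
    · rintro rfl
      exact Finset.Subset.refl _
  simp only [h3]
  split_ifs <;> simp

/-- A factorisation of the permanents of the test matrices needs many terms. -/
theorem lower {K : Type*} [Field K] {n a : ℕ} (hK : ((n.factorial : ℕ) : K) ≠ 0)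
    (ha : 2 * a ≤ n) {J : Type*} [Fintype J] (F H : J → Finset (Fin n) → K)
    (h : ∀ A T : Finset (Fin n), A.card = a → T.card ≤ a →
      (tX K a A T).permanent = ∑ t, F t A * H t T) : n.choose a ≤ Fintype.card J := by
  classical
  set I := {A : Finset (Fin n) // A ∈ Finset.powersetCard a (Finset.univ : Finset (Fin n))}
  have hfac := card_le_of_delta (K := K) (I := I) (J := J) (fun A t => F t A.1)
    (fun t S => ∑ T ∈ S.1.powerset, (-1 : K) ^ T.card *
      (((n - (a + T.card)).factorial : ℕ) : K)⁻¹ * H t T) ?_
  · rwa [Fintype.card_coe, Finset.card_powersetCard, Finset.card_univ, Fintype.card_fin] at hfac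
  · rintro ⟨A, hA⟩ ⟨S, hS⟩
    have hA' := (Finset.mem_powersetCard.1 hA).2
    have hS' := (Finset.mem_powersetCard.1 hS).2
    have h1 := sum_delta hK hA' hS' ha
    have h0 : (if (⟨A, hA⟩ : I) = ⟨S, hS⟩ then (1 : K) else 0) = if A = S then 1 else 0 := by
      by_cases hAS : A = S
      · subst hAS
        rw [if_pos rfl, if_pos rfl]
      · rw [if_neg hAS, if_neg fun h => hAS (congrArg Subtype.val h)]
    rw [h0, ← h1]
    have h3 : ∀ T ∈ S.powerset, (-1 : K) ^ T.card * (((n - (a + T.card)).factorial : ℕ) : K)⁻¹ *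
        (tX K a A T).permanent = ∑ t : J, F t A * ((-1 : K) ^ T.card *
          (((n - (a + T.card)).factorial : ℕ) : K)⁻¹ * H t T) := by
      intro T hT
      rw [h A T hA' (hS' ▸ Finset.card_le_card (Finset.mem_powerset.1 hT)), Finset.mul_sum]
      exact Finset.sum_congr rfl fun t _ => by ring
    rw [Finset.sum_congr rfl h3, Finset.sum_comm]
    exact Finset.sum_congr rfl fun t _ => Finset.mul_sum _ _ _

/-- If the permanent of matrices with entries `0` and `1` is a sum of `k` determinants of matrices
whose rows depend on single rows, at most `g` on each row, then `k` is large. -/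
theorem rowLocal {K : Type*} [Field K] {n k g a : ℕ} (hK : ((n.factorial : ℕ) : K) ≠ 0)
    {ι : Fin k → Type*} [∀ i, Fintype (ι i)] [∀ i, DecidableEq (ι i)]
    (row : ∀ i, ι i → Option (Fin n))
    (hrow : ∀ i (j : Fin n), (Finset.univ.filter fun s => row i s = some j).card ≤ g)
    (M : ∀ i, Matrix (Fin n) (Fin n) K → Matrix (ι i) (ι i) K)
    (hM : ∀ i s (X Y : Matrix (Fin n) (Fin n) K), (∀ j, row i s = some j → X j = Y j) →
      M i X s = M i Y s)
    (h : ∀ X : Matrix (Fin n) (Fin n) K, (∀ i j, X i j = 0 ∨ X i j = 1) →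
      ∑ i, (M i X).det = X.permanent) (ha : 2 * a ≤ n) :
    n.choose a ≤ k * (2 * (g * a)).choose (g * a) := by
  classical
  set U : ∀ i, Finset (ι i) := fun i => Finset.univ.filter fun s =>
    ∃ j, row i s = some j ∧ j.val < a with hU
  set V : ∀ i, Finset (ι i) := fun i => Finset.univ.filter fun s =>
    ∃ j, row i s = some j ∧ a ≤ j.val ∧ j.val < 2 * a with hV
  have hUV : ∀ i, Disjoint (U i) (V i) := by
    intro i
    rw [Finset.disjoint_left]
    intro s h1 h2
    rw [hU, Finset.mem_filter] at h1
    rw [hV, Finset.mem_filter] at h2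
    obtain ⟨-, j, h3, h4⟩ := h1
    obtain ⟨-, j', h5, h6, h7⟩ := h2
    rw [h3, Option.some.injEq] at h5
    rw [h5] at h4
    omega
  have hUc : ∀ i, (U i).card ≤ g * a := by
    intro i
    have h1 : U i ⊆ ((Finset.univ : Finset (Fin n)).filter fun j => j.val < a).biUnion fun j =>
        Finset.univ.filter fun s => row i s = some j := by
      intro s hs
      rw [hU, Finset.mem_filter] at hs
      obtain ⟨-, j, h3, h4⟩ := hs
      rw [Finset.mem_biUnion]
      exact ⟨j, by simp [h4], by simp [h3]⟩
    refine (Finset.card_le_card h1).trans (Finset.card_biUnion_le.trans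
      ((Finset.sum_le_card_nsmul _ _ g fun j _ => hrow i j).trans ?_))
    rw [card_filter_val (by omega), smul_eq_mul, mul_comm]
  have hVc : ∀ i, (V i).card ≤ g * a := by
    intro i
    have h1 : V i ⊆ ((Finset.univ : Finset (Fin n)).filter fun j =>
        a ≤ j.val ∧ j.val < 2 * a).biUnion fun j =>
        Finset.univ.filter fun s => row i s = some j := by
      intro s hs
      rw [hV, Finset.mem_filter] at hs
      obtain ⟨-, j, h3, h4⟩ := hs
      rw [Finset.mem_biUnion]
      exact ⟨j, by simp [h4], by simp [h3]⟩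
    have h2 : ((Finset.univ : Finset (Fin n)).filter fun j => a ≤ j.val ∧ j.val < 2 * a).card =
        a := by
      have h3 := Finset.card_filter_add_card_filter_not (s := (Finset.univ : Finset
        (Fin n)).filter fun j => j.val < 2 * a) (fun j => a ≤ j.val)
      rw [card_filter_val ha, Finset.filter_filter, Finset.filter_filter] at h3
      have h4 : ((Finset.univ : Finset (Fin n)).filter fun j => j.val < 2 * a ∧ ¬ a ≤ j.val) =
          (Finset.univ : Finset (Fin n)).filter fun j => j.val < a :=
        Finset.filter_congr fun j _ => by omega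
      have h5 : ((Finset.univ : Finset (Fin n)).filter fun j => j.val < 2 * a ∧ a ≤ j.val) =
          (Finset.univ : Finset (Fin n)).filter fun j => a ≤ j.val ∧ j.val < 2 * a :=
        Finset.filter_congr fun j _ => by omega
      rw [h4, h5, card_filter_val (by omega)] at h3
      omega
    refine (Finset.card_le_card h1).trans (Finset.card_biUnion_le.trans
      ((Finset.sum_le_card_nsmul _ _ g fun j _ => hrow i j).trans ?_))
    rw [h2, smul_eq_mul, mul_comm]
  choose f hh hfh using fun i => det_sep (K := K) (U i) (V i) (hUV i)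
    (fun (A : Finset (Fin n)) s => M i (tX K a A ∅) s) (fun (T : Finset (Fin n)) s =>
      M i (tX K a ∅ T) s) (fun s => M i (tX K a ∅ ∅) s)
  have hdet : ∀ i (A T : Finset (Fin n)), A.card = a → T.card ≤ a →
      (M i (tX K a A T)).det = ∑ t, f i t A * hh i t T := by
    intro i A T hA hT
    rw [← hfh i A T]
    congr 1
    funext s
    change M i (tX K a A T) s = if s ∈ U i then M i (tX K a A ∅) s else
      if s ∈ V i then M i (tX K a ∅ T) s else M i (tX K a ∅ ∅) s
    split_ifs with h1 h2
    · rw [hU, Finset.mem_filter] at h1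
      obtain ⟨-, j, h3, h4⟩ := h1
      refine hM i s _ _ fun j' hj' => ?_
      rw [h3, Option.some.injEq] at hj'
      rw [← hj']
      exact tX_row_left A T ∅ h4
    · rw [hV, Finset.mem_filter] at h2
      obtain ⟨-, j, h3, h4, h5⟩ := h2
      refine hM i s _ _ fun j' hj' => ?_
      rw [h3, Option.some.injEq] at hj'
      rw [← hj']
      exact tX_row_right A ∅ T hA.le (by simp) h4
    · refine hM i s _ _ fun j hj => ?_
      rw [hU, Finset.mem_filter] at h1
      rw [hV, Finset.mem_filter] at h2
      push Not at h1 h2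
      have h3 := h1 (Finset.mem_univ _) j hj
      have h4 := h2 (Finset.mem_univ _) j hj h3
      exact tX_row_const A ∅ T ∅ hA.le (by simp) hT (by simp) h4
  set J := Σ i : Fin k, Fin (((U i).card + (V i).card).choose (U i).card)
  have hfac := lower hK ha (J := J) (fun t A => f t.1 t.2 A) (fun t T => hh t.1 t.2 T) ?_
  · refine hfac.trans ?_
    rw [Fintype.card_sigma]
    simp only [Fintype.card_fin]
    refine (Finset.sum_le_card_nsmul _ _ ((2 * (g * a)).choose (g * a)) fun i _ => ?_).trans ?_
    · rw [two_mul]
      exact choose_mono (hUc i) (hVc i)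
    · rw [Finset.card_univ, Fintype.card_fin, smul_eq_mul]
  · intro A T hA hT
    rw [← h _ (fun i j => tX_zero_one a A T i j), Fintype.sum_sigma]
    exact Finset.sum_congr rfl fun i _ => hdet i A T hA hT

end Pool.Agent.Helper70K1.Perm
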