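import Mathlib

/-!
# Permanents are not determined by few weighted determinants
-/

set_option autoImplicit false

namespace Pool.Agent.Helper70K1.Perm

open Matrix Finset Equiv

/-! ### Permanents -/

section Permanent

variable {n o R : Type*} [DecidableEq n] [Fintype n] [DecidableEq o] [Fintype o] [CommSemiring R]

theorem permanent_submatrix {m : Type*} [DecidableEq m] [Fintype m] (A : Matrix n n R)
    (e f : m ≃ n) : (A.submatrix e f).permanent = A.permanent := by
  unfold Matrix.permanent
  rw [← Equiv.sum_comp (Equiv.equivCongr f e)]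
  refine Finset.sum_congr rfl fun σ _ => ?_
  rw [← Equiv.prod_comp f]
  refine Finset.prod_congr rfl fun i _ => ?_
  simp [Equiv.equivCongr_apply_apply]

theorem permanent_blockDiagonal (M : o → Matrix n n R) :
    (blockDiagonal M).permanent = ∏ k, (M k).permanent := by
  unfold Matrix.permanent
  rw [Finset.prod_sum]
  simp_rw [Finset.prod_attach_univ, Finset.univ_pi_univ]
  let preserving_snd : Finset (Equiv.Perm (n × o)) := {σ | ∀ x, (σ x).snd = x.snd}
  have mem_preserving_snd :
    ∀ {σ : Equiv.Perm (n × o)}, σ ∈ preserving_snd ↔ ∀ x, (σ x).snd = x.snd := fun {σ} =>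
    Finset.mem_filter.trans ⟨fun h => h.2, fun h => ⟨Finset.mem_univ _, h⟩⟩
  rw [← Finset.sum_subset (Finset.subset_univ preserving_snd) _]
  · refine (Finset.sum_bij (fun σ _ => prodCongrLeft fun k ↦ σ k (mem_univ k)) ?_ ?_ ?_ ?_).symm
    · intro σ _
      rw [mem_preserving_snd]
      rintro ⟨-, x⟩
      simp only [prodCongrLeft_apply]
    · intro σ _ σ' _ eq
      ext x hx k
      have :
        ∀ k x,
          prodCongrLeft (fun k => σ k (Finset.mem_univ _)) (k, x) =
            prodCongrLeft (fun k => σ' k (Finset.mem_univ _)) (k, x) :=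
        fun k x => by rw [eq]
      simp only [prodCongrLeft_apply, Prod.mk_inj] at this
      exact (this k x).1
    · intro σ hσ
      rw [mem_preserving_snd] at hσ
      have hσ' x : (σ.symm x).snd = x.snd := by simpa [eq_comm] using hσ (σ.symm x)
      have mk_apply_eq : ∀ k x, ((σ (x, k)).fst, k) = σ (x, k) := by
        intro k x
        ext
        · simp only
        · simp only [hσ]
      have mk_inv_apply_eq : ∀ k x, ((σ.symm (x, k)).fst, k) = σ.symm (x, k) := by grind
      refine ⟨fun k _ => ⟨fun x => (σ (x, k)).fst, fun x => (σ.symm (x, k)).fst, ?_, ?_⟩, ?_, ?_⟩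
      · intro x
        simp [mk_apply_eq]
      · intro x
        simp [mk_inv_apply_eq]
      · apply Finset.mem_univ
      · ext ⟨k, x⟩
        · simp only [coe_fn_mk, prodCongrLeft_apply]
        · simp only [prodCongrLeft_apply, hσ]
    · intro σ _
      rw [Fintype.prod_prod_type_right]
      refine Finset.prod_congr rfl fun k _ => ?_
      refine Finset.prod_congr rfl fun x _ => ?_
      simp [blockDiagonal_apply]
  · intro σ _ hσ
    rw [mem_preserving_snd] at hσ
    obtain ⟨⟨k, x⟩, hkx⟩ := not_forall.mp hσ
    rw [Finset.prod_eq_zero (Finset.mem_univ (k, x))]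
    rw [blockDiagonal_apply_ne]
    exact hkx

theorem permanent_ones_two : (Matrix.of fun _ _ : Fin 2 => (1 : R)).permanent = 2 := by
  unfold Matrix.permanent
  simp [Fintype.card_perm]

end Permanent

/-! ### Pairs of columns -/

section Select

variable {I Col : Type*} {r : ℕ}

/-- The number of pairs with different colours. -/
theorem card_diff (C : Finset Col) (f : Col → Fin r) :
    r * ((C ×ˢ C).filter fun x => f x.1 ≠ f x.2).card ≤ (r - 1) * C.card ^ 2 := by
  classical
  have h1 : ((C ×ˢ C).filter fun x => f x.1 = f x.2).card =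
      ∑ v : Fin r, (C.filter fun c => f c = v).card ^ 2 := by
    have h2 : ((C ×ˢ C).filter fun x => f x.1 = f x.2).card =
        ∑ v ∈ (Finset.univ : Finset (Fin r)), (((C ×ˢ C).filter fun x => f x.1 = f x.2).filter
          fun x => f x.1 = v).card :=
      Finset.card_eq_sum_card_fiberwise (fun x _ => Finset.mem_coe.2 (Finset.mem_univ _))
    rw [h2]
    refine Finset.sum_congr rfl fun v _ => ?_
    have h3 : (((C ×ˢ C).filter fun x => f x.1 = f x.2).filter fun x => f x.1 = v) =
        (C.filter fun c => f c = v) ×ˢ (C.filter fun c => f c = v) := by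
      ext x
      simp only [Finset.mem_filter, Finset.mem_product]
      constructor
      · rintro ⟨⟨⟨h4, h5⟩, h6⟩, h7⟩
        exact ⟨⟨h4, h7⟩, h5, h6 ▸ h7⟩
      · rintro ⟨⟨h4, h5⟩, h6, h7⟩
        exact ⟨⟨⟨h4, h6⟩, h5.trans h7.symm⟩, h5⟩
    rw [h3, Finset.card_product, sq]
  have h2 : C.card = ∑ v : Fin r, (C.filter fun c => f c = v).card :=
    Finset.card_eq_sum_card_fiberwise (fun x _ => Finset.mem_coe.2 (Finset.mem_univ _))
  have h3 : C.card ^ 2 ≤ r * ∑ v : Fin r, (C.filter fun c => f c = v).card ^ 2 := by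
    rw [h2]
    have := sq_sum_le_card_mul_sum_sq (s := (Finset.univ : Finset (Fin r)))
      (f := fun v => (C.filter fun c => f c = v).card)
    rwa [Finset.card_univ, Fintype.card_fin] at this
  have h4 := Finset.card_filter_add_card_filter_not (s := C ×ˢ C) (fun x => f x.1 = f x.2)
  rw [Finset.card_product, ← sq, h1] at h4
  rcases Nat.eq_zero_or_pos r with hr | hr
  · subst hr
    simp
  · obtain ⟨r', rfl⟩ : ∃ r', r = r' + 1 := ⟨r - 1, by omega⟩
    simp only [Nat.add_sub_cancel]
    have h5 : (r' + 1) * C.card ^ 2 = (r' + 1) * (∑ v : Fin (r' + 1),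
      (C.filter fun c => f c = v).card ^ 2) + (r' + 1) *
        ((C ×ˢ C).filter fun x => ¬ f x.1 = f x.2).card := by
      rw [← mul_add, h4]
    have h6 : (r' + 1) * C.card ^ 2 = r' * C.card ^ 2 + C.card ^ 2 := by ring
    change (r' + 1) * ((C ×ˢ C).filter fun x => ¬ f x.1 = f x.2).card ≤ _
    omega

/-- Selection of disjoint pairs of columns such that every index has a pair of equal colours. -/
theorem select [DecidableEq Col] [Nonempty Col] (χ : I → ℕ → Col → Fin r) :
    ∀ (s : ℕ) (C : Finset Col) (J : Finset I),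
    C.card = 2 * s → J.card * (4 * (r - 1)) ^ s < s.centralBinom * r ^ s →
    ∃ g : ℕ → Bool → Col, (∀ t < s, ∀ x, g t x ∈ C) ∧
      (∀ t < s, ∀ t' < s, ∀ x x', g t x = g t' x' → t = t' ∧ x = x') ∧
      ∀ i ∈ J, ∃ t < s, χ i t (g t false) = χ i t (g t true) := by
  classical
  intro s
  induction s with
  | zero =>
    intro C J hC hJ
    have hJ0 : J = ∅ := by
      rw [← Finset.card_eq_zero]
      simp at hJ
      simpa using hJ
    obtain ⟨c⟩ := ‹Nonempty Col›
    exact ⟨fun _ _ => c, fun t ht => absurd ht (by omega), fun t ht => absurd ht (by omega),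
      fun i hi => by rw [hJ0] at hi; simp at hi⟩
  | succ n ih =>
    intro C J hC hJ
    -- averaging over the pairs
    have hoff : C.offDiag.card = 2 * (n + 1) * (2 * n + 1) := by
      rw [Finset.offDiag_card, hC]
      have : 2 * (n + 1) * (2 * (n + 1)) = 2 * (n + 1) * (2 * n + 1) + 2 * (n + 1) := by ring
      omega
    set J' : Col × Col → Finset I := fun x => J.filter fun i => χ i n x.1 ≠ χ i n x.2 with hJ'
    have hsum : r * ∑ x ∈ C.offDiag, (J' x).card ≤ J.card * ((r - 1) * (2 * (n + 1)) ^ 2) := by
      have h1 : ∑ x ∈ C.offDiag, (J' x).card =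
          ∑ i ∈ J, (C.offDiag.filter fun x => χ i n x.1 ≠ χ i n x.2).card := by
        simp only [hJ', Finset.card_filter]
        exact Finset.sum_comm
      rw [h1, Finset.mul_sum]
      refine (Finset.sum_le_card_nsmul _ _ ((r - 1) * (2 * (n + 1)) ^ 2) fun i _ => ?_).trans
        (le_of_eq (by rw [smul_eq_mul]))
      have h2 := card_diff C (χ i n)
      rw [hC] at h2
      refine le_trans (Nat.mul_le_mul_left _ (Finset.card_le_card ?_)) h2
      intro x hx
      rw [Finset.mem_filter, Finset.mem_offDiag] at hx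
      rw [Finset.mem_filter, Finset.mem_product]
      exact ⟨⟨hx.1.1, hx.1.2.1⟩, hx.2⟩
    have hex : ∃ x ∈ C.offDiag, r * (2 * n + 1) * (J' x).card ≤ J.card * ((r - 1) * (2 * (n + 1))) := by
      by_contra hcon
      push Not at hcon
      have h1 : ∑ x ∈ C.offDiag, (J.card * ((r - 1) * (2 * (n + 1)))) <
          ∑ x ∈ C.offDiag, r * (2 * n + 1) * (J' x).card := by
        refine Finset.sum_lt_sum_of_nonempty ?_ hcon
        rw [← Finset.card_pos, hoff]
        positivity
      rw [Finset.sum_const, hoff, smul_eq_mul, ← Finset.mul_sum] at h1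
      have h2 : (2 * n + 1) * (r * ∑ x ∈ C.offDiag, (J' x).card) ≤
          (2 * n + 1) * (J.card * ((r - 1) * (2 * (n + 1)) ^ 2)) := Nat.mul_le_mul_left _ hsum
      have h3 : 2 * (n + 1) * (2 * n + 1) * (J.card * ((r - 1) * (2 * (n + 1)))) =
          (2 * n + 1) * (J.card * ((r - 1) * (2 * (n + 1)) ^ 2)) := by ring
      have h4 : r * (2 * n + 1) * ∑ x ∈ C.offDiag, (J' x).card =
          (2 * n + 1) * (r * ∑ x ∈ C.offDiag, (J' x).card) := by ring
      omega
    obtain ⟨⟨c, d⟩, hcd, hle⟩ := hex
    rw [Finset.mem_offDiag] at hcd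
    obtain ⟨hc, hd, hne⟩ := hcd
    simp only at hc hd hne
    have hC' : ((C.erase c).erase d).card = 2 * n := by
      rw [Finset.card_erase_of_mem (Finset.mem_erase.2 ⟨hne.symm, hd⟩), Finset.card_erase_of_mem hc,
        hC]
      omega
    have hJn : (J' (c, d)).card * (4 * (r - 1)) ^ n < n.centralBinom * r ^ n := by
      have hb := Nat.succ_mul_centralBinom_succ n
      by_contra hcon
      push Not at hcon
      have h1 : 2 * (2 * n + 1) * r * (n.centralBinom * r ^ n) ≤
          2 * (2 * n + 1) * r * ((J' (c, d)).card * (4 * (r - 1)) ^ n) :=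
        Nat.mul_le_mul_left _ hcon
      have h2 : 2 * (2 * n + 1) * r * ((J' (c, d)).card * (4 * (r - 1)) ^ n) =
          2 * (4 * (r - 1)) ^ n * (r * (2 * n + 1) * (J' (c, d)).card) := by ring
      have h3 : 2 * (4 * (r - 1)) ^ n * (r * (2 * n + 1) * (J' (c, d)).card) ≤
          2 * (4 * (r - 1)) ^ n * (J.card * ((r - 1) * (2 * (n + 1)))) :=
        Nat.mul_le_mul_left _ hle
      have h4 : 2 * (4 * (r - 1)) ^ n * (J.card * ((r - 1) * (2 * (n + 1)))) =
          (n + 1) * (J.card * (4 * (r - 1)) ^ (n + 1)) := by ring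
      have h5 : (n + 1) * (J.card * (4 * (r - 1)) ^ (n + 1)) <
          (n + 1) * ((n + 1).centralBinom * r ^ (n + 1)) :=
        Nat.mul_lt_mul_of_pos_left hJ (Nat.succ_pos n)
      have h6 : (n + 1) * ((n + 1).centralBinom * r ^ (n + 1)) =
          2 * (2 * n + 1) * r * (n.centralBinom * r ^ n) := by
        rw [← mul_assoc, hb]
        ring
      omega
    obtain ⟨g, hg1, hg2, hg3⟩ := ih ((C.erase c).erase d) (J' (c, d)) hC' hJn
    refine ⟨Function.update g n fun x => bif x then d else c, ?_, ?_, ?_⟩
    · intro t ht x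
      by_cases htn : t = n
      · subst htn
        rw [Function.update_self]
        cases x
        · exact hc
        · exact hd
      · rw [Function.update_of_ne htn]
        exact Finset.mem_of_mem_erase (Finset.mem_of_mem_erase (hg1 t (by omega) x))
    · have hnot : ∀ t < n, ∀ x y, g t x ≠ (bif y then d else c) := by
        intro t ht x y h
        have h1 := hg1 t ht x
        rw [Finset.mem_erase, Finset.mem_erase] at h1
        cases y
        · exact h1.2.1 h
        · exact h1.1 h
      intro t ht t' ht' x x'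
      by_cases htn : t = n
      · by_cases htn' : t' = n
        · subst htn
          rw [htn', Function.update_self]
          intro h
          refine ⟨rfl, ?_⟩
          cases x <;> cases x' <;> simp only [cond_true, cond_false] at h
          · rfl
          · exact absurd h hne
          · exact absurd h.symm hne
          · rfl
        · subst htn
          rw [Function.update_self, Function.update_of_ne htn']
          intro h
          exact absurd h.symm (hnot t' (by omega) x' x)
      · by_cases htn' : t' = n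
        · subst htn'
          rw [Function.update_self, Function.update_of_ne htn]
          intro h
          exact absurd h (hnot t (by omega) x x')
        · rw [Function.update_of_ne htn, Function.update_of_ne htn']
          exact hg2 t (by omega) t' (by omega) x x'
    · intro i hi
      by_cases hi2 : χ i n c = χ i n d
      · refine ⟨n, by omega, ?_⟩
        rw [Function.update_self]
        exact hi2
      · obtain ⟨t, ht, h1⟩ := hg3 i (Finset.mem_filter.2 ⟨hi, hi2⟩)
        refine ⟨t, by omega, ?_⟩
        rw [Function.update_of_ne (by omega)]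
        exact h1

end Select

/-! ### The determinants -/

theorem det_zero_of_dep {n K : Type*} [DecidableEq n] [Fintype n] [Field K] {M : Matrix n n K}
    {a b : n} (hab : a ≠ b) {α β : K} (h : α ≠ 0 ∨ β ≠ 0)
    (h0 : ∀ j, α * M a j + β * M b j = 0) : M.det = 0 := by
  rw [← Matrix.exists_vecMul_eq_zero_iff]
  refine ⟨Pi.single a α + Pi.single b β, fun h1 => ?_, ?_⟩
  · rcases h with h | h
    · have := congrFun h1 a
      simp [hab] at this
      exact h this
    · have := congrFun h1 b
      simp [hab.symm] at this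
      exact h this
  · rw [Matrix.add_vecMul, Matrix.single_vecMul, Matrix.single_vecMul]
    funext j
    simpa using h0 j

/-- If the rows `a` and `b` vanish outside two columns and have a vanishing minor there, then the
determinant vanishes. -/
theorem det_zero_of_minor {n K : Type*} [DecidableEq n] [Fintype n] [Field K] {M : Matrix n n K}
    {a b c d : n} (hab : a ≠ b) (h1 : ∀ j, j ≠ c → j ≠ d → M a j = 0 ∧ M b j = 0)
    (h2 : M a c * M b d = M a d * M b c) : M.det = 0 := by
  by_cases h3 : M b c ≠ 0 ∨ - M a c ≠ 0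
  · refine det_zero_of_dep hab h3 fun j => ?_
    by_cases hjc : j = c
    · subst hjc; ring
    · by_cases hjd : j = d
      · subst hjd
        linear_combination -h2
      · rw [(h1 j hjc hjd).1, (h1 j hjc hjd).2]; ring
  · push Not at h3
    have h5 : M a c = 0 := by simpa using h3.2
    by_cases h4 : M b d ≠ 0 ∨ - M a d ≠ 0
    · refine det_zero_of_dep hab h4 fun j => ?_
      by_cases hjc : j = c
      · subst hjc
        rw [h5, h3.1]; ring
      · by_cases hjd : j = d
        · subst hjd; ring
        · rw [(h1 j hjc hjd).1, (h1 j hjc hjd).2]; ring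
    · push Not at h4
      have h6 : M a d = 0 := by simpa using h4.2
      refine det_zero_of_dep (α := 1) (β := 0) hab (Or.inl one_ne_zero) fun j => ?_
      by_cases hjc : j = c
      · subst hjc
        rw [h5]; ring
      · by_cases hjd : j = d
        · subst hjd
          rw [h6]; ring
        · rw [(h1 j hjc hjd).1]; ring

theorem fin2_eq : ∀ x x' : Fin 2, (x = 1 ↔ x' = 1) → x = x' := by decide

/-- If the weighted determinants `det (S i ⊙ X)` determine whether the permanent of a matrix `X` with
entries `0` and `1` vanishes, and the weights in each pair of rows fall in `r` classes, then there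
are at least `(r / (4 (r - 1))) ^ m * centralBinom m` of them. -/
theorem main {K : Type*} [Field K] (h2 : (2 : K) ≠ 0) {m r k : ℕ} (hm : 1 ≤ m) (hr : 1 ≤ r)
    (S : Fin k → Matrix (Fin m × Fin 2) (Fin m × Fin 2) K)
    (hS : ∀ (i : Fin k) (t : Fin m), ∃ χ : Fin m × Fin 2 → Fin r, ∀ c d, χ c = χ d →
      S i (t, 0) c * S i (t, 1) d = S i (t, 0) d * S i (t, 1) c)
    (h : ∀ X Y : Matrix (Fin m × Fin 2) (Fin m × Fin 2) K, (∀ a b, X a b = 0 ∨ X a b = 1) →
      (∀ a b, Y a b = 0 ∨ Y a b = 1) → (∀ i, (S i ⊙ X).det = (S i ⊙ Y).det) →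
        X.permanent ≠ 0 → Y.permanent ≠ 0) :
    m.centralBinom * r ^ m ≤ k * (4 * (r - 1)) ^ m := by
  classical
  by_contra hcon
  push Not at hcon
  choose χ hχ using hS
  have : Nonempty (Fin m × Fin 2) := ⟨(⟨0, hm⟩, 0)⟩
  obtain ⟨g, _, hg2, hg3⟩ := select (Col := Fin m × Fin 2)
    (fun (i : Fin k) t c => if h : t < m then χ i ⟨t, h⟩ c else ⟨0, hr⟩) m Finset.univ Finset.univ
    (by simp [mul_comm]) (by simpa using hcon)
  -- the arrangement of the columns
  set G : Fin 2 × Fin m → Fin m × Fin 2 := fun x => g x.2 (decide (x.1 = 1)) with hG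
  have hGi : Function.Injective G := by
    rintro ⟨x, t⟩ ⟨x', t'⟩ h
    obtain ⟨h3, h4⟩ := hg2 t t.2 t' t'.2 _ _ h
    have h5 : x = x' := fin2_eq x x' (decide_eq_decide.1 h4)
    exact Prod.ext h5 (Fin.ext h3)
  have hGb : Function.Bijective G := by
    rw [Fintype.bijective_iff_injective_and_card]
    exact ⟨hGi, by simp [mul_comm]⟩
  set π : Fin 2 × Fin m ≃ Fin m × Fin 2 := Equiv.ofBijective G hGb with hπ
  set X : Matrix (Fin m × Fin 2) (Fin m × Fin 2) K :=
    Matrix.of fun a b => if a.1 = (π.symm b).2 then 1 else 0 with hX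
  have hX01 : ∀ a b, X a b = 0 ∨ X a b = 1 := by
    intro a b
    rw [hX]
    simp only [Matrix.of_apply]
    split_ifs
    · exact Or.inr rfl
    · exact Or.inl rfl
  have hper : X.permanent = 2 ^ m := by
    rw [← permanent_submatrix X (Equiv.prodComm (Fin 2) (Fin m)) π]
    have h3 : X.submatrix (Equiv.prodComm (Fin 2) (Fin m)) π =
        blockDiagonal fun _ : Fin m => (Matrix.of fun _ _ : Fin 2 => (1 : K)) := by
      ext ⟨x, t⟩ ⟨x', t'⟩
      simp [hX, blockDiagonal_apply]
    rw [h3, permanent_blockDiagonal]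
    simp [permanent_ones_two]
  have hdet : ∀ i, (S i ⊙ X).det = 0 := by
    intro i
    obtain ⟨t, ht, h3⟩ := hg3 i (Finset.mem_univ i)
    rw [dif_pos ht, dif_pos ht] at h3
    have h4 := hχ i ⟨t, ht⟩ _ _ h3
    have hc : π (0, ⟨t, ht⟩) = g t false := by simp [hπ, hG]
    have hd : π (1, ⟨t, ht⟩) = g t true := by simp [hπ, hG]
    have hXc : ∀ x, X (⟨t, ht⟩, x) (g t false) = 1 := fun x => by
      rw [← hc, hX]; simp
    have hXd : ∀ x, X (⟨t, ht⟩, x) (g t true) = 1 := fun x => by
      rw [← hd, hX]; simp
    refine det_zero_of_minor (a := (⟨t, ht⟩, 0)) (b := (⟨t, ht⟩, 1)) (c := g t false)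
      (d := g t true) (by simp) (fun j hjc hjd => ?_) ?_
    · have h5 : ∀ x, X (⟨t, ht⟩, x) j = 0 := by
        intro x
        rw [hX]
        simp only [Matrix.of_apply]
        rw [if_neg]
        intro h6
        obtain ⟨⟨y, t'⟩, rfl⟩ := π.surjective j
        rw [Equiv.symm_apply_apply] at h6
        simp only at h6
        subst h6
        fin_cases y
        · exact hjc hc
        · exact hjd hd
      simp [Matrix.hadamard_apply, h5]
    · simp only [Matrix.hadamard_apply, hXc, hXd, mul_one]
      exact h4
  refine h X 0 hX01 (fun a b => Or.inl rfl) (fun i => ?_) ?_ Matrix.permanent_zero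
  · rw [hdet i, Matrix.hadamard_zero, Matrix.det_zero]
  · rw [hper]
    exact pow_ne_zero _ h2

end Pool.Agent.Helper70K1.Perm
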